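import Mathlib
import Pool.Agent.H43.G.R_seed8.Helper919.Arith
import Pool.Agent.H43.G.R_seed8.Helper919.NonRes

set_option autoImplicit false

namespace Pool.Agent.Helper919

open Finset ArithmeticFunction
open scoped ArithmeticFunction.Moebius ArithmeticFunction.zeta

theorem XX_mod (n : ℤ) (d : ℕ) : XX n (d % (4 * n.natAbs)) = XX n d := by
  rw [XX_apply, XX_apply]
  have hpar : Odd (d % (4 * n.natAbs)) ↔ Odd d := by
    rw [Nat.odd_iff, Nat.odd_iff, Nat.mod_mod_of_dvd d (show 2 ∣ 4 * n.natAbs from ⟨2 * n.natAbs, by ring⟩)]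
  by_cases h : Odd d
  · rw [if_pos h, if_pos (hpar.2 h), ← jacobiSym.mod_right n h]
  · rw [if_neg h, if_neg (fun h2 => h (hpar.1 h2))]

theorem XX_zero_of_not_coprime (n : ℤ) (d : ℕ) (h : ¬ d.Coprime (4 * n.natAbs)) : XX n d = 0 := by
  rw [XX_apply]
  by_cases ho : Odd d
  · rw [if_pos ho]
    have : NeZero d := ⟨ho.pos.ne'⟩
    have h2 : jacobiSym n d = 0 := by
      rw [jacobiSym.eq_zero_iff_not_coprime]
      intro h3
      apply h
      have h4 : Nat.Coprime d 4 := by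
        have : Nat.Coprime d (2 ^ 2) := Nat.Coprime.pow_right 2 (Nat.coprime_two_right.2 ho)
        simpa using this
      have h5 : Nat.Coprime d n.natAbs := by
        rw [Int.gcd_eq_natAbs] at h3
        rw [Nat.coprime_comm]
        simpa using h3
      exact Nat.Coprime.mul_right h4 h5
    rw [h2]; simp
  · rw [if_neg ho]

/-- The quadratic Dirichlet character attached to `n`. -/
noncomputable def psi (n : ℤ) (hn : n ≠ 0) : DirichletCharacter ℂ (4 * n.natAbs) where
  toFun a := ((XX n a.val : ℝ) : ℂ)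
  map_one' := by
    have h : 1 < 4 * n.natAbs := by have := Int.natAbs_pos.2 hn; omega
    have : Fact (1 < 4 * n.natAbs) := ⟨h⟩
    rw [ZMod.val_one, XX_one]; simp
  map_mul' a b := by
    rw [ZMod.val_mul, XX_mod, XX_mul]; push_cast; ring
  map_nonunit' a ha := by
    have h : 1 < 4 * n.natAbs := by have := Int.natAbs_pos.2 hn; omega
    have : NeZero (4 * n.natAbs) := ⟨by omega⟩
    rw [XX_zero_of_not_coprime]
    · simp
    · intro h2
      apply ha
      rw [← ZMod.natCast_zmod_val a]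
      exact (ZMod.isUnit_iff_coprime a.val (4 * n.natAbs)).2 h2

theorem psi_apply (n : ℤ) (hn : n ≠ 0) (d : ℕ) : psi n hn (d : ZMod (4 * n.natAbs)) = ((XX n d : ℝ) : ℂ) := by
  change ((XX n ((d : ZMod (4 * n.natAbs)).val) : ℝ) : ℂ) = _
  rw [ZMod.val_natCast, XX_mod]

theorem psi_ne_one (n : ℤ) (hn : n ≠ 0) (hsq : ¬ IsSquare n) : psi n hn ≠ 1 := by
  obtain ⟨d, hd, hj⟩ := exists_jacobi_neg_one n hsq
  intro h
  have h1 := psi_apply n hn d
  rw [h, XX_apply, if_pos hd, hj] at h1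
  rcases em (IsUnit (d : ZMod (4 * n.natAbs))) with hu | hu
  · rw [MulChar.one_apply hu] at h1
    norm_num at h1
  · rw [MulChar.map_nonunit _ hu] at h1
    norm_num at h1

theorem XX_sum_period (n : ℤ) (hn : n ≠ 0) (hsq : ¬ IsSquare n) :
    ∑ d ∈ range (4 * n.natAbs), XX n d = 0 := by
  have : NeZero (4 * n.natAbs) := ⟨by have := Int.natAbs_pos.2 hn; omega⟩
  have h1 := MulChar.sum_eq_zero_of_ne_one (psi_ne_one n hn hsq)
  have h2 : ∑ a : ZMod (4 * n.natAbs), psi n hn a = ∑ d ∈ range (4 * n.natAbs), ((XX n d : ℝ) : ℂ) := by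
    refine Finset.sum_bij' (fun a _ => a.val) (fun d _ => (d : ZMod (4 * n.natAbs))) ?_ ?_ ?_ ?_ ?_
    · intro a _; exact mem_range.2 (ZMod.val_lt a)
    · intro d _; exact mem_univ _
    · intro a _; exact ZMod.natCast_zmod_val a
    · intro d hd; exact ZMod.val_cast_of_lt (mem_range.1 hd)
    · intro a _; rfl
  rw [h1] at h2
  have h3 : ((∑ d ∈ range (4 * n.natAbs), XX n d : ℝ) : ℂ) = 0 := by
    rw [h2]; push_cast; rfl
  exact_mod_cast h3

theorem XX_abs_le (n : ℤ) (d : ℕ) : |XX n d| ≤ 1 := by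
  rw [XX_apply]
  split_ifs with h
  · have : NeZero d := ⟨h.pos.ne'⟩
    rcases jacobiSym.trichotomy n d with h | h | h <;> rw [h] <;> simp
  · simp

theorem XX_sum_bound (n : ℤ) (hn : n ≠ 0) (hsq : ¬ IsSquare n) (N : ℕ) :
    |∑ d ∈ Ioc 0 N, XX n d| ≤ 4 * n.natAbs := by
  set m := 4 * n.natAbs with hm
  have hmpos : 0 < m := by have := Int.natAbs_pos.2 hn; omega
  have hper : ∀ q x, XX n (m * q + x) = XX n x := by
    intro q x
    rw [← XX_mod n (m * q + x), ← XX_mod n x, Nat.mul_add_mod]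
  have h0 : ∀ q, ∑ d ∈ range (m * q), XX n d = 0 := by
    intro q
    induction q with
    | zero => simp
    | succ q ih =>
      rw [Nat.mul_succ, Finset.sum_range_add, ih, zero_add]
      simp_rw [hper]
      exact XX_sum_period n hn hsq
  have h1 : ∑ d ∈ Ioc 0 N, XX n d = ∑ d ∈ range (N + 1), XX n d := by
    rw [Finset.range_eq_Ico, Finset.sum_eq_sum_Ico_succ_bot (by omega : 0 < N + 1)]
    simp only [ArithmeticFunction.map_zero, zero_add]
    rfl
  rw [h1]
  have h2 := Nat.div_add_mod (N + 1) m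
  rw [← h2, Finset.sum_range_add, h0, zero_add]
  simp_rw [hper]
  calc |∑ d ∈ range ((N + 1) % m), XX n d| ≤ ∑ d ∈ range ((N + 1) % m), |XX n d| :=
        Finset.abs_sum_le_sum_abs _ _
    _ ≤ ∑ d ∈ range ((N + 1) % m), (1 : ℝ) := Finset.sum_le_sum fun d _ => XX_abs_le n d
    _ = (((N + 1) % m : ℕ) : ℝ) := by simp
    _ ≤ (m : ℝ) := by exact_mod_cast (Nat.mod_lt _ hmpos).le
    _ = 4 * n.natAbs := by rw [hm]; push_cast; ring

end Pool.Agent.Helper919
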